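import Pool.Agent.Helper41.CI.Main

/-!
MP_e809c2_ag, Q1 and Q2 for all smooth complete intersections (in particular all smooth
hypersurfaces) of low degree, in every characteristic.

Proof.  Let `f_u = ∑ x^j u_j` (`j ≤ e`) and `Y = {u : F_l(f_u) = 0}`.  The curve `f_u` is very free
if `w ↦ (∑_m (∂_m F_l)(f_u) w_m)_l` is onto in degree `e - 2` (`Helper41/CI/Crit.lean`).  If this
fails for every `u` in `Y`, there are linear functionals `lam^l` on the polynomials of degree
`≤ e d_l - 2`, not all zero, with `∑_l lam^l (w (∂_m F_l)(f_u)) = 0` for all `w` of degree `≤ e - 2`.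
The arithmetic condition on `e` says that the `g^(d_l - 1) w` span the polynomials of degree
`≤ e d_l - 2` (`Helper41/CI/Span.lean`), so that `lam^l (g^(d_l - 1) w) ≠ 0` for some `g`, `w`; with
`g` as an element of the basis in which `f_u` is expanded, these relations, the equations
`F_l(f_u) = 0` and the Nullstellensatz show that one block of coordinates of `u` is integral over
the other coordinates (`Helper41/CI/Chart.lean`), so that any
`M + 1 = e (N + 1) + ∑ (e d_l - 1)` linear forms in `u` are algebraically dependent on `Y`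
(`Helper41/CI/Fil.lean`).  But if `W` is a maximal linear space with `W ∩ Y = 0`, then `Y` maps onto
the quotient by `W`, which has dimension at least `(e + 1) (N + 1) - ∑ (e d_l + 1) ≥ M + 1`
(`Helper41/CI/Null.lean`), a contradiction.
-/

open Pool.Agent.Helper41.CI

namespace Pool.Agent.Results.MP_e809c2_ag.CompleteIntersections

universe u

/-- Let `k` be an algebraically closed field of characteristic `p` (`p = 0` allowed), `X` a smooth
complete intersection of `c ≥ 1` hypersurfaces of degrees `d_l ≥ 2` in `P^N`, and `e ≥ 2` with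
`p^i < e (((d_l - 1) mod p^i) + 1)` for all `l` and all `i ≥ 1` with `p^i ≤ d_l - 1` (this holds if
`e ≥ max d_l`, and it holds for `e = 2` if every `d_l` is `a p^r` with `a < p`, or if `p = 0` or
`p ≥ max d_l`).  If `N + 1 ≥ 2 e (d_1 + ... + d_c)`, then `X` contains a very free rational curve of
degree `e`. -/
theorem result (k : Type u) [Field k] [IsAlgClosed k] (p : ℕ) [CharP k p] (N c e : ℕ) (hc : 0 < c)
    (F : Fin c → MvPolynomial (Fin (N + 1)) k) (d : Fin c → ℕ)
    (hF : ∀ l, (F l).IsHomogeneous (d l)) (hd : ∀ l, 2 ≤ d l) (he : 2 ≤ e)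
    (hcond : ∀ l i, 1 ≤ i → p ^ i ≤ d l - 1 → p ^ i < e * ((d l - 1) % p ^ i + 1))
    (hX : SmoothCI F) (hN : 2 * e * ∑ l, d l ≤ N + 1) :
    ∃ γ : RationalCurve F, γ.e = e ∧ γ.VeryFree :=
  main p hc hF hd he hcond hX hN

end Pool.Agent.Results.MP_e809c2_ag.CompleteIntersections
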