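import Pool.Agent.Helper41.FQ.Main

/-!
MP_e809c2_ag, Q2: a smooth projective Fano fivefold in characteristic two without very free
rational curves.

Let `k` be algebraically closed of characteristic `2`, `Q = ∑ x_i y_i`,
`F = ∑ x_i³ + c_i y_i³` (`i = 1, …, 4`), where no nonempty subset sum of the `1 / c_i` vanishes.
`A = {Q = F = 0} ⊆ ℙ⁷` is smooth of dimension `5`.  The derivation
`v = ∑ c_i y_i² ∂/∂x_i + x_i² ∂/∂y_i` of degree one satisfies `v Q = F`, `v F = 0`, `v² = 0`, and it is
nowhere proportional to the Euler derivation on `A`, so it defines a line subbundle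
`𝒪_A(-1) ⊆ T_A` closed under squaring, with smooth quotient `π : A → X`.  Then
`-π^* K_X = 𝒪_A(2)`, so `X` is Fano, and `T_X` has a line bundle quotient `N` with
`π^* N = 𝒪_A(-2)`.  So for every non constant `f : ℙ¹ → X` the bundle `f^* T_X` has a quotient of
negative degree.

In the Lean proof `X` is the closure of a point in a projective space over the function field of
the cone over `A`, with explicit affine charts (`Helper41/FQ/Std.lean`): with `Z_l = z_l²`,
`Λ_l = v z_l`, `m_(l,n) = z_l Λ_n + z_n Λ_l` the chart `Λ_a m_(a,m) ≠ 0` has coordinate ring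
generated by `Z_l/λ²`, `λ²/Λ_a`, `m_(a,l)/m_(a,m)` (`λ = m_(a,m)/Λ_a`), and its explicit relations
are a submersive presentation of relative dimension five.  The five coordinates of the charts
give eight sections of `ω_X⁻¹` which vanish exactly at `z_b = 0`, and the differential forms
`Z_b Λ_a⁻² dZ_a` are global one-forms on `X` without common zero, which pair to zero with the
summands `𝒪(a)`, `a > 0`, of `f^* T_X`.

Sanity checks of the definitions (not imported here), over every field `k`: `ℙ¹` is separably
rationally connected (`FQ.sanity_src`, `Helper41/FQ/M/SanSRC.lean`), and `ℙ¹` is a smooth Fano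
variety of dimension one (`FQ.sanity_fano`, `Helper41/FQ/M/SanFano.lean`).
-/

open CategoryTheory AlgebraicGeometry FQ

namespace Pool.Agent.Results.MP_e809c2_ag.FanoFivefold

universe u

/-- For every algebraically closed field `k` of characteristic `2` there is a smooth projective
Fano variety `X` over `k`, of dimension `5`, which is not separably rationally connected: there is
no `k`-morphism `f : ℙ¹ ⟶ X` such that `f^* T_X ≅ 𝒪(a₁) ⊕ ⋯ ⊕ 𝒪(aₙ)` with all `aᵢ > 0`. -/
theorem result (k : Type u) [Field k] [IsAlgClosed k] [CharP k 2] :
    ∃ (X : Scheme.{u}) (s : X ⟶ Spec (.of k)),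
      IsSmoothFano s 5 ∧ ¬ IsSeparablyRationallyConnected s :=
  FQ.main k

end Pool.Agent.Results.MP_e809c2_ag.FanoFivefold
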