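import Pool.Agent.Helper61.SRC.Main

/-!
MP_e809c2_ag, Q1 for all smooth Fano hypersurfaces defined by q-bic forms, in particular for
the Fermat hypersurfaces of degree `q + 1`, `q` a power of the characteristic.
-/

open Pool.Agent.Helper61.SRC

namespace Pool.Agent.Results.MP_e809c2_ag.QBicHypersurface

universe u

/-- Let `k` be an algebraically closed field of characteristic `p > 0`, `q = p ^ r`, `r > 0`, and
`N ≥ q + 1`.  For every invertible matrix `G` the hypersurface `∑ G_ij x_i^q x_j = 0` of degree
`q + 1` in `P^N` is smooth and has a very free rational curve (of degree `q (q - 1) + 1`). -/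
theorem result (p : ℕ) (hp : p.Prime) (k : Type u) [Field k] [IsAlgClosed k] [CharP k p]
    (r N : ℕ) (hr : 0 < r) (hN : p ^ r + 1 ≤ N) (G : Matrix (Fin (N + 1)) (Fin (N + 1)) k)
    (hG : G.det ≠ 0) :
    (qbic (p ^ r) G).IsHomogeneous (p ^ r + 1) ∧ SmoothHypersurface (qbic (p ^ r) G) ∧
      ∃ c : RationalCurve (qbic (p ^ r) G), c.e = p ^ r * (p ^ r - 1) + 1 ∧ c.VeryFree :=
  main p hp k r N hr hN G hG

end Pool.Agent.Results.MP_e809c2_ag.QBicHypersurface
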